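import Pool.Agent.Run7.h698.VonQ

set_option autoImplicit false
open Matrix
open scoped symmDiff

namespace Pool.Agent.Results.MP_16b7e9_gt.CoveredVonorm

open Pool.Agent.K7.H30.Vo Pool.Agent.Run7.h698.Von

/-- The value `A[x] = xᵀ A x` at an integral vector `x`. -/
noncomputable def formVal {n : ℕ} (A : Matrix (Fin n) (Fin n) ℝ) (x : Fin n → ℤ) : ℝ :=
  dotProduct (fun i => (x i : ℝ)) (A.mulVec (fun i => (x i : ℝ)))

/-- `tcvp(A, v)` for `v` the vector with entry `1/2` on `S` and `0` off `S`: the minimum over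
integral `x` of `A[x - v]`. -/
noncomputable def tcvp {n : ℕ} (A : Matrix (Fin n) (Fin n) ℝ) (S : Finset (Fin n)) : ℝ :=
  ⨅ x : Fin n → ℤ,
    dotProduct (fun i => (x i : ℝ) - (if i ∈ S then (1/2 : ℝ) else 0))
      (A.mulVec (fun i => (x i : ℝ) - (if i ∈ S then (1/2 : ℝ) else 0)))

/-- The integral vector `x` lies in the class `c` of `ℤⁿ / 2ℤⁿ`. -/
def InClass {n : ℕ} (x : Fin n → ℤ) (c : Fin n → ZMod 2) : Prop :=
  ∀ i, ((x i : ℤ) : ZMod 2) = c i

/-- The vonorm of the class `c`: the least value of `A[·]` on it. -/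
noncomputable def vonorm {n : ℕ} (A : Matrix (Fin n) (Fin n) ℝ) (c : Fin n → ZMod 2) : ℝ :=
  sInf {t | ∃ x : Fin n → ℤ, InClass x c ∧ t = formVal A x}

/-- In the class `c` of `ℤⁿ / 2ℤⁿ` the vectors of least value `A[·]` are a single pair `±x`. -/
def UniquePair {n : ℕ} (A : Matrix (Fin n) (Fin n) ℝ) (c : Fin n → ZMod 2) : Prop :=
  ∀ x y : Fin n → ℤ, InClass x c → InClass y c →
    (∀ z : Fin n → ℤ, InClass z c → formVal A x ≤ formVal A z ∧ formVal A y ≤ formVal A z) →
    y = x ∨ y = -x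

/-- A circuit of classes: a nonempty finite set of classes with sum zero, none of whose proper
nonempty subsets has sum zero. -/
def IsCircuit {n : ℕ} (r : Finset (Fin n → ZMod 2)) : Prop :=
  r.Nonempty ∧ ∑ c ∈ r, c = 0 ∧ ∀ s ⊆ r, ∑ c ∈ s, c = 0 → s = ∅ ∨ s = r

/-- The class `d` is short for `r`: the average of the vonorm over the classes
`d + (subset sum of r)` is at most a quarter of the total vonorm of `r`. -/
def Short {n : ℕ} (A : Matrix (Fin n) (Fin n) ℝ) (r : Finset (Fin n → ZMod 2))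
    (d : Fin n → ZMod 2) : Prop :=
  4 * ∑ s ∈ r.powerset, vonorm A (d + ∑ c ∈ s, c) ≤ 2 ^ r.card * ∑ c ∈ r, vonorm A c

/-- The sets of classes obtained, by symmetric differences, from the finite sets of nonzero classes
of `H` with unique pairs of minimal vectors whose sum is zero and whose total vonorm is less than
`w`. -/
inductive Generated {n : ℕ} (A : Matrix (Fin n) (Fin n) ℝ) (w : ℝ)
    (H : AddSubgroup (Fin n → ZMod 2)) : Finset (Fin n → ZMod 2) → Prop
  | base (s : Finset (Fin n → ZMod 2)) : (∀ c ∈ s, c ≠ 0 ∧ UniquePair A c) → (∀ c ∈ s, c ∈ H) →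
      ∑ c ∈ s, c = 0 → ∑ c ∈ s, vonorm A c < w → Generated A w H s
  | symm (s t : Finset (Fin n → ZMod 2)) : Generated A w H s → Generated A w H t →
      Generated A w H (s ∆ t)

/-- The set `r` is covered: whenever `d` and `d + e` are both short for `r` and `e` is not a subset
sum of `r`, some subgroup `H` avoids `e` and `r` is generated by lighter zero-sum sets in `H`. -/
def Covered {n : ℕ} (A : Matrix (Fin n) (Fin n) ℝ) (r : Finset (Fin n → ZMod 2)) : Prop :=
  ∀ d e : Fin n → ZMod 2, (∀ s ⊆ r, e ≠ ∑ c ∈ s, c) → Short A r d → Short A r (d + e) →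
    ∃ H : AddSubgroup (Fin n → ZMod 2), e ∉ H ∧ Generated A (∑ c ∈ r, vonorm A c) H r

/-- Every circuit of at least five classes with unique pairs of minimal vectors is covered. -/
def FiveCovered {n : ℕ} (A : Matrix (Fin n) (Fin n) ℝ) : Prop :=
  ∀ r : Finset (Fin n → ZMod 2), 5 ≤ r.card → IsCircuit r → (∀ c ∈ r, UniquePair A c) →
    Covered A r

lemma f_eq_vonorm {n : ℕ} {A : Matrix (Fin n) (Fin n) ℝ} (hA : A.PosDef)
    (M : (latOf hA).MinSys) : M.f = vonorm A := by
  funext c
  have hpr : ∀ x : Fin n → ℤ, (latOf hA).pr x = c ↔ InClass x c := by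
    intro x
    constructor
    · intro h i
      rw [← latOf_pr hA x i, h]
    · intro h
      funext i
      rw [latOf_pr]; exact h i
  have hl : IsLeast {t | ∃ x : Fin n → ℤ, InClass x c ∧ t = formVal A x} (M.f c) := by
    refine ⟨⟨M.y c, (hpr _).mp (M.pr_y c), rfl⟩, ?_⟩
    rintro t ⟨x, hx, rfl⟩
    exact M.f_le' ((hpr x).mpr hx)
  exact hl.csInf_eq.symm

lemma ne_zero_of_circuit {n : ℕ} {r : Finset (Fin n → ZMod 2)} (h5 : 5 ≤ r.card)
    (hr : IsCircuit r) {c : Fin n → ZMod 2} (hc : c ∈ r) : c ≠ 0 := by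
  intro h0
  rcases hr.2.2 {c} (Finset.singleton_subset_iff.mpr hc) (by rw [Finset.sum_singleton, h0]) with
    h | h
  · exact Finset.singleton_ne_empty _ h
  · rw [← h, Finset.card_singleton] at h5; omega

lemma generated_of_gen {n : ℕ} {A : Matrix (Fin n) (Fin n) ℝ} (hA : A.PosDef)
    (M : (latOf hA).MinSys) {w : ℝ} {H : AddSubgroup (Fin n → ZMod 2)}
    {Z : Finset (Fin n → ZMod 2)} (hG : Gen (vonorm A) w H Z) : Generated A w H Z := by
  have hfv := f_eq_vonorm hA M
  induction hG with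
  | base Z h1 h2 h3 h4 =>
    refine Generated.base Z (fun c hc => ?_) h2 h3 h4
    have h5 := h1 c hc
    refine ⟨h5.1, ?_⟩
    rw [← hfv] at h5
    exact (St_iff_uniq hA M h5.1).mp h5
  | symm Z Z' _ _ i1 i2 => exact Generated.symm Z Z' i1 i2

lemma gen_of_generated {n : ℕ} {A : Matrix (Fin n) (Fin n) ℝ} (hA : A.PosDef)
    (M : (latOf hA).MinSys) {w : ℝ} {H : AddSubgroup (Fin n → ZMod 2)}
    {Z : Finset (Fin n → ZMod 2)} (hG : Generated A w H Z) : Gen (vonorm A) w H Z := by
  have hfv := f_eq_vonorm hA M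
  induction hG with
  | base Z h1 h2 h3 h4 =>
    refine Gen.base Z (fun c hc => ?_) h2 h3 h4
    rw [← hfv]
    exact (St_iff_uniq hA M (h1 c hc).1).mpr (h1 c hc).2
  | symm Z Z' _ _ i1 i2 => exact Gen.symm Z Z' i1 i2

/-- Chords give coverings: if every circuit of at least five classes with unique pairs has a partial
sum of between `2` and `|r| - 2` classes which again has a unique pair, then `A` is
`FiveCovered`. -/
theorem fiveCovered_of_chords {n : ℕ} {A : Matrix (Fin n) (Fin n) ℝ} (hA : A.PosDef)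
    (hch : ∀ r : Finset (Fin n → ZMod 2), 5 ≤ r.card → IsCircuit r → (∀ c ∈ r, UniquePair A c) →
      ∃ s ⊆ r, 2 ≤ s.card ∧ s.card + 2 ≤ r.card ∧ UniquePair A (∑ c ∈ s, c)) :
    FiveCovered A := by
  obtain ⟨M⟩ := (latOf hA).exists_minSys
  have hfv := f_eq_vonorm hA M
  have hcov : Covered5 M.f := by
    apply covered_of_chordal5 M
    intro r hr hst hcirc
    obtain ⟨s, hs, hs2, hs3, hu⟩ := hch r hr
      ⟨hcirc.1, hcirc.2.1, fun s hs h0 => hcirc.2.2 s hs h0⟩
      (fun c hc => (St_iff_uniq hA M (hst c hc).1).mp (hst c hc))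
    refine ⟨s, hs, hs2, hs3, ?_⟩
    have hne : sm s ≠ 0 := by
      intro h0
      rcases hcirc.2.2 s hs h0 with h1 | h1
      · rw [h1, Finset.card_empty] at hs2; omega
      · rw [h1] at hs3; omega
    exact (St_iff_uniq hA M hne).mpr hu
  rw [hfv] at hcov
  intro r h5 hcirc hu d e he hd hde
  obtain ⟨H, hH, hG⟩ := hcov r h5
    (fun a ha => by
      have := (St_iff_uniq hA M (ne_zero_of_circuit h5 hcirc ha)).mpr (hu a ha)
      rwa [hfv] at this)
    ⟨hcirc.1, hcirc.2.1, fun X hX h0 => hcirc.2.2 X hX h0⟩ d e he hd hde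
  exact ⟨H, hH, generated_of_gen hA M hG⟩

/-- Forms with at most nine classes without a unique pair are `FiveCovered`. -/
theorem fiveCovered_of_few {n : ℕ} {A : Matrix (Fin n) (Fin n) ℝ} (hA : A.PosDef)
    (h : {c : Fin n → ZMod 2 | ¬ UniquePair A c}.ncard ≤ 9) : FiveCovered A := by
  classical
  apply fiveCovered_of_chords hA
  intro r hr hcirc hu
  by_contra hno
  push Not at hno
  have hinj : ∀ s ∈ r.powersetCard 2, ∀ t ∈ r.powersetCard 2,
      ∑ c ∈ s, c = ∑ c ∈ t, c → s = t := by
    intro s hs t ht hst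
    rw [Finset.mem_powersetCard] at hs ht
    have h1 : sm (symmDiff s t) = 0 := by
      rw [sm_symmDiff]
      have : sm s = sm t := hst
      rw [this]
      exact self_add _
    have h2 : symmDiff s t ⊆ r := by
      intro x hx
      rw [Finset.mem_symmDiff] at hx
      rcases hx with hx | hx
      · exact hs.1 hx.1
      · exact ht.1 hx.1
    rcases hcirc.2.2 _ h2 h1 with h3 | h3
    · exact symmDiff_eq_bot.mp h3
    · exfalso
      have h4 : (symmDiff s t).card ≤ s.card + t.card := by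
        have h5 : symmDiff s t ⊆ s ∪ t := by
          intro x hx
          rw [Finset.mem_symmDiff] at hx
          rw [Finset.mem_union]
          tauto
        exact (Finset.card_le_card h5).trans (Finset.card_union_le _ _)
      rw [h3, hs.2, ht.2] at h4
      omega
  have hsub : (((r.powersetCard 2).image (fun s => ∑ c ∈ s, c) :
      Finset (Fin n → ZMod 2)) : Set (Fin n → ZMod 2)) ⊆ {c | ¬ UniquePair A c} := by
    intro c hc
    rw [Finset.mem_coe, Finset.mem_image] at hc
    obtain ⟨s, hs, rfl⟩ := hc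
    rw [Finset.mem_powersetCard] at hs
    exact hno s hs.1 (by omega) (by omega)
  have h1 := Set.ncard_le_ncard hsub (Set.toFinite _)
  rw [Set.ncard_coe_finset, Finset.card_image_of_injOn
    (fun s hs t ht => hinj s (Finset.mem_coe.mp hs) t (Finset.mem_coe.mp ht)),
    Finset.card_powersetCard] at h1
  have h2 : Nat.choose 5 2 ≤ r.card.choose 2 := Nat.choose_le_choose 2 hr
  have h3 : Nat.choose 5 2 = 10 := by decide
  omega

/-- A positive definite form whose circuits of at least five classes with unique pairs of minimal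
vectors are covered is determined among all positive definite forms, up to integral equivalence, by
its vonorms. -/
theorem result (n : ℕ) (A B : Matrix (Fin n) (Fin n) ℝ) (hA : A.PosDef) (hB : B.PosDef)
    (hcov : FiveCovered A) (h : ∀ S : Finset (Fin n), S.Nonempty → tcvp A S = tcvp B S) :
    ∃ U : Matrix (Fin n) (Fin n) ℤ, IsUnit U.det ∧
      B = (U.map (Int.cast : ℤ → ℝ))ᵀ * A * U.map (Int.cast : ℤ → ℝ) := by
  obtain ⟨M⟩ := (latOf hA).exists_minSys
  obtain ⟨N⟩ := (latOf hB).exists_minSys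
  have hf := f_eq_of_tcvp hA hB M N h
  have hfv := f_eq_vonorm hA M
  apply matrix_of_isometry hA hB
  apply isometry_of_covered5 M N hf
  intro r h5 hst hcirc d e he hd hde
  rw [hfv] at hd hde
  obtain ⟨H, hH, hG⟩ := hcov r h5
    ⟨hcirc.1, hcirc.2.1, fun s hs h0 => hcirc.2.2 s hs h0⟩
    (fun c hc => (St_iff_uniq hA M (hst c hc).1).mp (hst c hc)) d e he hd hde
  refine ⟨H, hH, ?_⟩
  rw [hfv]
  exact gen_of_generated hA M hG

end Pool.Agent.Results.MP_16b7e9_gt.CoveredVonorm
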